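import Pool.Agent.H93.TN.TargetsB
import Pool.Agent.H27.LS.Chi

/-!
Module MKR of tn_modules (MP_ee74d2_an): the kernel of the symbol `mu`.
-/

set_option autoImplicit false

namespace Pool.Agent.H71.TN

open MeasureTheory Set FourierTransform
open Pool.Agent.H93.TN Pool.Agent.H83.LS Pool.Agent.H83.AR Pool.Agent.H83.LS.H27
open scoped ENNReal NNReal

lemma contDiff_ch2 : ContDiff ℝ (⊤ : ℕ∞) ch2 := by
  unfold ch2
  exact (contDiff_eta0.comp (contDiff_id.div_const 4)).sub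
    (contDiff_eta0.comp (contDiff_const.mul contDiff_id))

lemma ch2_supp {s : ℝ} (h : ch2 s ≠ 0) : 1 / 8 < s ∧ s < 8 := by
  unfold ch2 at h
  constructor
  · by_contra h1
    push Not at h1
    rw [eta0_one (by linarith), eta0_one (by linarith)] at h
    simp at h
  · by_contra h1
    push Not at h1
    rw [eta0_zero (by linarith), eta0_zero (by linarith)] at h
    simp at h

lemma abs_ch2_le (s : ℝ) : |ch2 s| ≤ 1 := by
  unfold ch2
  have h1 := eta0_nonneg (s / 4)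
  have h2 := eta0_le_one (s / 4)
  have h3 := eta0_nonneg (8 * s)
  have h4 := eta0_le_one (8 * s)
  rw [abs_le]
  constructor <;> linarith

lemma abs_eta0_le (s : ℝ) : |eta0 s| ≤ 1 := by
  rw [abs_of_nonneg (eta0_nonneg s)]
  exact eta0_le_one s

/-- square of `zz` -/
noncomputable def Z2 (a b : ℕ) (u : EE a) (w : EE b) (x : EE (a + b)) : ℝ :=
  (inner ℝ (p1 a b x) u : ℝ) ^ 2 + (inner ℝ (p2 a b x) w : ℝ) ^ 2

section

variable {a b : ℕ} {u : EE a} {w : EE b}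

lemma zz_eq (x : EE (a + b)) : zz a b u w x = Real.sqrt (Z2 a b u w x) := rfl

lemma Z2_nonneg (x : EE (a + b)) : 0 ≤ Z2 a b u w x := by
  unfold Z2
  positivity

lemma inner_p1 (hJM : T_JM) (x : EE (a + b)) (u : EE a) :
    (inner ℝ (p1 a b x) u : ℝ) = inner ℝ x (jm a b u 0) := by
  obtain ⟨h1, -, h3, -⟩ := hJM a b
  rw [h3, (h1 u 0).1, (h1 u 0).2, inner_zero_right, add_zero]

lemma inner_p2 (hJM : T_JM) (x : EE (a + b)) (w : EE b) :
    (inner ℝ (p2 a b x) w : ℝ) = inner ℝ x (jm a b 0 w) := by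
  obtain ⟨h1, -, h3, -⟩ := hJM a b
  rw [h3, (h1 0 w).1, (h1 0 w).2, inner_zero_right, zero_add]

lemma contDiff_Z2 (hJM : T_JM) : ContDiff ℝ (⊤ : ℕ∞) (Z2 a b u w) := by
  have h : Z2 a b u w = fun x : EE (a + b) =>
      (inner ℝ x (jm a b u 0) : ℝ) ^ 2 + (inner ℝ x (jm a b 0 w) : ℝ) ^ 2 := by
    funext x
    unfold Z2
    rw [inner_p1 hJM, inner_p2 hJM]
  rw [h]
  exact ((contDiff_id.inner ℝ contDiff_const).pow 2).add
    ((contDiff_id.inner ℝ contDiff_const).pow 2)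

lemma continuous_zz (hJM : T_JM) : Continuous (zz a b u w) :=
  Real.continuous_sqrt.comp (contDiff_Z2 hJM).continuous

lemma Z2_le (hJM : T_JM) (hu : ‖u‖ = 1) (hw : ‖w‖ = 1) (x : EE (a + b)) :
    Z2 a b u w x ≤ ‖x‖ ^ 2 := by
  obtain ⟨-, -, -, h4, -⟩ := hJM a b
  rw [h4]
  unfold Z2
  have h1 := abs_real_inner_le_norm (p1 a b x) u
  have h2 := abs_real_inner_le_norm (p2 a b x) w
  rw [hu, mul_one] at h1
  rw [hw, mul_one] at h2
  have h5 := sq_le_sq' (neg_le_of_abs_le h1) (le_of_abs_le h1)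
  have h6 := sq_le_sq' (neg_le_of_abs_le h2) (le_of_abs_le h2)
  linarith

end

/-- the rescaled symbol -/
noncomputable def PsM (a b : ℕ) (u : EE a) (w : EE b) (q : (Fin 2 → ℝ) × EE (a + b)) : ℂ :=
  e (q.1 0 * ((‖q.2‖ ^ 2 - Z2 a b u w q.2) /
    (Real.sqrt (Z2 a b u w q.2 + q.1 1 * (‖q.2‖ ^ 2 - Z2 a b u w q.2)) + zz a b u w q.2))) *
  ((chi (Real.sqrt (Z2 a b u w q.2 + q.1 1 * (‖q.2‖ ^ 2 - Z2 a b u w q.2))) *
    ch2 (zz a b u w q.2) * eta0 ((‖q.2‖ ^ 2 - Z2 a b u w q.2) / 16) : ℝ) : ℂ)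

section

variable {a b : ℕ} {u : EE a} {w : EE b}

lemma contDiff_par (i : Fin 2) :
    ContDiff ℝ (⊤ : ℕ∞) (fun q : (Fin 2 → ℝ) × EE (a + b) => q.1 i) :=
  (contDiff_apply ℝ ℝ i).comp contDiff_fst

lemma contDiffOn_PsM (hJM : T_JM) (hu : ‖u‖ = 1) (hw : ‖w‖ = 1) :
    ContDiffOn ℝ (⊤ : ℕ∞) (PsM a b u w)
      ({p : Fin 2 → ℝ | -(1 / 10000) < p 1 ∧ p 1 < 2} ×ˢ univ) := by
  intro q hq
  apply ContDiffAt.contDiffWithinAt
  have hq1 : -(1 / 10000) < q.1 1 ∧ q.1 1 < 2 := hq.1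
  have hZ : ContDiff ℝ (⊤ : ℕ∞) (fun q : (Fin 2 → ℝ) × EE (a + b) => Z2 a b u w q.2) :=
    (contDiff_Z2 hJM).comp contDiff_snd
  have hN : ContDiff ℝ (⊤ : ℕ∞) (fun q : (Fin 2 → ℝ) × EE (a + b) =>
      ‖q.2‖ ^ 2 - Z2 a b u w q.2) := by
    have h1 : ContDiff ℝ (⊤ : ℕ∞) (fun q : (Fin 2 → ℝ) × EE (a + b) => ‖q.2‖ ^ 2) :=
      (contDiff_norm_sq ℝ).comp contDiff_snd
    exact h1.sub hZ
  have hzc : Continuous (fun q : (Fin 2 → ℝ) × EE (a + b) => zz a b u w q.2) :=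
    (continuous_zz hJM).comp continuous_snd
  by_cases h1 : zz a b u w q.2 < 1 / 8
  · have h2 : PsM a b u w =ᶠ[nhds q] fun _ => (0 : ℂ) := by
      filter_upwards [hzc.continuousAt.eventually (Iio_mem_nhds h1)] with y hy
      have h3 : ch2 (zz a b u w y.2) = 0 := by
        by_contra h4
        have h5 := (ch2_supp h4).1
        have hy' : zz a b u w y.2 < 1 / 8 := hy
        linarith
      unfold PsM
      rw [h3]
      simp
    exact contDiffAt_const.congr_of_eventuallyEq h2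
  push Not at h1
  by_cases h2 : 32 < ‖q.2‖ ^ 2 - Z2 a b u w q.2
  · have h3 : PsM a b u w =ᶠ[nhds q] fun _ => (0 : ℂ) := by
      filter_upwards [hN.continuous.continuousAt.eventually (Ioi_mem_nhds h2)] with y hy
      have hy' : 32 < ‖y.2‖ ^ 2 - Z2 a b u w y.2 := hy
      have h3 : eta0 ((‖y.2‖ ^ 2 - Z2 a b u w y.2) / 16) = 0 := eta0_zero (by linarith)
      unfold PsM
      rw [h3]
      simp
    exact contDiffAt_const.congr_of_eventuallyEq h3
  push Not at h2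
  have h3 := Z2_le hJM hu hw q.2
  have h4 : 1 / 64 ≤ Z2 a b u w q.2 := by
    rw [zz_eq] at h1
    have h5 := Real.sq_sqrt (Z2_nonneg (u := u) (w := w) q.2)
    nlinarith
  have h5 : 0 < Z2 a b u w q.2 + q.1 1 * (‖q.2‖ ^ 2 - Z2 a b u w q.2) := by
    rcases le_or_gt 0 (q.1 1) with h6 | h6
    · have : 0 ≤ q.1 1 * (‖q.2‖ ^ 2 - Z2 a b u w q.2) := mul_nonneg h6 (by linarith)
      linarith
    · have : -(32 / 10000) ≤ q.1 1 * (‖q.2‖ ^ 2 - Z2 a b u w q.2) := by nlinarith [hq1.1]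
      linarith
  have hS : ContDiffAt ℝ (⊤ : ℕ∞) (fun q : (Fin 2 → ℝ) × EE (a + b) =>
      Real.sqrt (Z2 a b u w q.2 + q.1 1 * (‖q.2‖ ^ 2 - Z2 a b u w q.2))) q := by
    have h6 : ContDiff ℝ (⊤ : ℕ∞) (fun q : (Fin 2 → ℝ) × EE (a + b) =>
        Z2 a b u w q.2 + q.1 1 * (‖q.2‖ ^ 2 - Z2 a b u w q.2)) :=
      hZ.add ((contDiff_par 1).mul hN)
    exact h6.contDiffAt.sqrt h5.ne'
  have hz : ContDiffAt ℝ (⊤ : ℕ∞) (fun q : (Fin 2 → ℝ) × EE (a + b) => zz a b u w q.2) q := by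
    have h6 : ContDiffAt ℝ (⊤ : ℕ∞) (fun q : (Fin 2 → ℝ) × EE (a + b) =>
        Real.sqrt (Z2 a b u w q.2)) q := hZ.contDiffAt.sqrt (by linarith : (0 : ℝ) < _).ne'
    exact h6
  have h6 : Real.sqrt (Z2 a b u w q.2 + q.1 1 * (‖q.2‖ ^ 2 - Z2 a b u w q.2)) +
      zz a b u w q.2 ≠ 0 := by
    have := Real.sqrt_nonneg (Z2 a b u w q.2 + q.1 1 * (‖q.2‖ ^ 2 - Z2 a b u w q.2))
    have h7 : (0 : ℝ) < 1 / 8 := by norm_num
    linarith
  unfold PsM
  apply ContDiffAt.mul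
  · apply contDiff_e.contDiffAt.comp q
    exact (contDiff_par 0).contDiffAt.mul (hN.contDiffAt.div (hS.add hz) h6)
  · apply Complex.ofRealCLM.contDiff.contDiffAt.comp q
    apply ContDiffAt.mul
    · apply ContDiffAt.mul
      · exact contDiff_chi.contDiffAt.comp q hS
      · exact contDiff_ch2.contDiffAt.comp q hz
    · exact contDiff_eta0.contDiffAt.comp q (hN.contDiffAt.div_const 16)

lemma supp_PsM (p : Fin 2 → ℝ) (ξ : EE (a + b)) (hξ : 10 < ‖ξ‖) :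
    PsM a b u w (p, ξ) = 0 := by
  by_contra h
  unfold PsM at h
  have h1 := right_ne_zero_of_mul h
  have h2 : chi (Real.sqrt (Z2 a b u w ξ + p 1 * (‖ξ‖ ^ 2 - Z2 a b u w ξ))) *
    ch2 (zz a b u w ξ) * eta0 ((‖ξ‖ ^ 2 - Z2 a b u w ξ) / 16) ≠ 0 := by exact_mod_cast h1
  have h3 := left_ne_zero_of_mul h2
  have h4 := (ch2_supp (right_ne_zero_of_mul h3)).2
  have h5 : (‖ξ‖ ^ 2 - Z2 a b u w ξ) / 16 < 2 := by
    by_contra h6
    push Not at h6
    exact (right_ne_zero_of_mul h2) (eta0_zero h6)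
  rw [zz_eq, Real.sqrt_lt' (by norm_num)] at h4
  nlinarith

end

/-! ### scaling -/

lemma scale_emb (n : ℕ) (s l : ℝ) (hs : 0 < s) (hl : 0 < l) :
    MeasurableEmbedding (fun q : EE n × (ℝ × ℝ) => (s • q.1, l • q.2)) := by
  have h1 : MeasurableEmbedding (Prod.map (fun y : EE n => s • y) (fun r : ℝ × ℝ => l • r)) :=
    (Homeomorph.smulOfNeZero s hs.ne').measurableEmbedding.prodMap
      (Homeomorph.smulOfNeZero l hl.ne').measurableEmbedding
  exact h1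

lemma scale_map (n : ℕ) (s l : ℝ) (hs : 0 < s) (hl : 0 < l) :
    Measure.map (fun q : EE n × (ℝ × ℝ) => (s • q.1, l • q.2))
      (volume : Measure (EE n × (ℝ × ℝ))) =
      ENNReal.ofReal ((l ^ 2 * s ^ n)⁻¹) • (volume : Measure (EE n × (ℝ × ℝ))) := by
  have h3 : (fun q : EE n × (ℝ × ℝ) => (s • q.1, l • q.2)) =
    Prod.map (fun y : EE n => s • y) (fun r : ℝ × ℝ => l • r) := rfl
  have h4 : Module.finrank ℝ (ℝ × ℝ) = 2 := by simp
  rw [h3, Measure.volume_eq_prod, ← Measure.map_prod_map _ _ (by fun_prop) (by fun_prop),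
    Measure.map_addHaar_smul _ hs.ne', Measure.map_addHaar_smul _ hl.ne',
    Measure.prod_smul_left, Measure.prod_smul_right, smul_smul,
    finrank_euclideanSpace_fin, h4, abs_of_pos (by positivity), abs_of_pos (by positivity),
    ← ENNReal.ofReal_mul (by positivity), ← mul_inv, mul_comm (s ^ n)]

lemma scale_int (n : ℕ) (s l : ℝ) (hs : 0 < s) (hl : 0 < l) (F : EE n × (ℝ × ℝ) → ℂ) :
    ∫ q : EE n × (ℝ × ℝ), F q =
      ((l ^ 2 * s ^ n : ℝ) : ℂ) * ∫ q : EE n × (ℝ × ℝ), F (s • q.1, l • q.2) := by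
  have h4 := (scale_emb n s l hs hl).integral_map (μ := (volume : Measure (EE n × (ℝ × ℝ)))) F
  rw [scale_map n s l hs hl, integral_smul_measure, ENNReal.toReal_ofReal (by positivity)] at h4
  rw [← h4, Complex.real_smul, ← mul_assoc, ← Complex.ofReal_mul,
    mul_inv_cancel₀ (by positivity), Complex.ofReal_one, one_mul]

lemma scale_lint (n : ℕ) (s l : ℝ) (hs : 0 < s) (hl : 0 < l) (G : EE n × (ℝ × ℝ) → ℝ≥0∞) :
    ENNReal.ofReal (l ^ 2 * s ^ n) * ∫⁻ q : EE n × (ℝ × ℝ), G (s • q.1, l • q.2) =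
      ∫⁻ q : EE n × (ℝ × ℝ), G q := by
  have h4 := (scale_emb n s l hs hl).lintegral_map (μ := (volume : Measure (EE n × (ℝ × ℝ)))) G
  rw [scale_map n s l hs hl, lintegral_smul_measure, smul_eq_mul] at h4
  rw [← h4, ← mul_assoc, ← ENNReal.ofReal_mul (by positivity), mul_inv_cancel₀ (by positivity),
    ENNReal.ofReal_one, one_mul]

lemma wN_finite (d : ℕ) :
    ∫⁻ x : EE d, ENNReal.ofReal (((1 + ‖x‖) ^ (d + 1))⁻¹) < ∞ := by
  have h := integrable_one_add_norm (E := EE d) (μ := volume) (r := (d : ℝ) + 1)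
    (by rw [finrank_euclideanSpace]; simp)
  have h2 := h.lintegral_lt_top
  refine lt_of_le_of_lt (lintegral_mono (fun v => ?_)) h2
  apply ENNReal.ofReal_le_ofReal
  rw [Real.rpow_neg (by positivity)]
  apply le_of_eq
  congr 1
  norm_cast

lemma cont_MK {d : ℕ} (m : ℝ → EE d → ℂ) (hm : Continuous (fun p : ℝ × EE d => m p.1 p.2))
    (hb : ∀ t ξ, ‖m t ξ‖ ≤ 1) (R : ℝ) (hs : ∀ t ξ, R < ‖ξ‖ → m t ξ = 0) :
    Continuous (fun p : ℝ × EE d => MK (m p.1) p.2) := by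
  have hF1 : ∀ p : ℝ × EE d, Continuous (fun ξ : EE d => e (inner ℝ p.2 ξ) * m p.1 ξ) := by
    intro p
    have h1 : Continuous (fun ξ : EE d => (inner ℝ p.2 ξ : ℝ)) :=
      continuous_const.inner continuous_id
    have hp : Continuous (fun ξ : EE d => ((p.1, ξ) : ℝ × EE d)) :=
      continuous_const.prodMk continuous_id
    have h2 : Continuous (fun ξ : EE d => m p.1 ξ) := hm.comp hp
    have h3 : Continuous (fun ξ : EE d => e (inner ℝ p.2 ξ)) := continuous_e.comp h1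
    exact h3.mul h2
  have hF2 : ∀ ξ : EE d, Continuous (fun p : ℝ × EE d => e (inner ℝ p.2 ξ) * m p.1 ξ) := by
    intro ξ
    have h1 : Continuous (fun p : ℝ × EE d => (inner ℝ p.2 ξ : ℝ)) :=
      continuous_snd.inner continuous_const
    have hp : Continuous (fun p : ℝ × EE d => ((p.1, ξ) : ℝ × EE d)) :=
      continuous_fst.prodMk continuous_const
    have h2 : Continuous (fun p : ℝ × EE d => m p.1 ξ) := hm.comp hp
    have h3 : Continuous (fun p : ℝ × EE d => e (inner ℝ p.2 ξ)) := continuous_e.comp h1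
    exact h3.mul h2
  have hfin : volume (Metric.closedBall (0 : EE d) R) ≠ ∞ := measure_closedBall_lt_top.ne
  have hI : Integrable ((Metric.closedBall (0 : EE d) R).indicator (fun _ => (1 : ℝ))) := by
    rw [integrable_indicator_iff Metric.isClosed_closedBall.measurableSet]
    exact integrableOn_const hfin
  have key : Continuous (fun p : ℝ × EE d => ∫ ξ : EE d, e (inner ℝ p.2 ξ) * m p.1 ξ) := by
    refine continuous_of_dominated (fun p => (hF1 p).aestronglyMeasurable) (fun p => ?_) hI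
      (Filter.Eventually.of_forall hF2)
    refine Filter.Eventually.of_forall fun ξ => ?_
    by_cases hξ : ξ ∈ Metric.closedBall (0 : EE d) R
    · rw [indicator_of_mem hξ, norm_mul, norm_e, one_mul]
      exact hb p.1 ξ
    · rw [indicator_of_notMem hξ]
      rw [mem_closedBall_zero_iff, not_le] at hξ
      rw [hs p.1 ξ hξ, mul_zero, norm_zero]
  exact key

/-! ### elementary properties of `mu` -/

section

variable {a b : ℕ} {u : EE a} {w : EE b}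

lemma continuous_mu (hJM : T_JM) (lam : ℝ) :
    Continuous (fun p : ℝ × EE (a + b) => mu a b u w lam p.1 p.2) := by
  have h1 : Continuous (fun p : ℝ × EE (a + b) => zz a b u w p.2) :=
    (continuous_zz hJM).comp continuous_snd
  unfold mu
  refine Continuous.mul ?_ ?_
  · exact continuous_e.comp (continuous_fst.mul (continuous_snd.norm.sub h1))
  · refine Complex.continuous_ofReal.comp ?_
    refine Continuous.mul (Continuous.mul ?_ ?_) ?_
    · exact continuous_chi.comp (continuous_snd.norm.div_const _)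
    · exact contDiff_ch2.continuous.comp (h1.div_const _)
    · exact contDiff_eta0.continuous.comp
        (((continuous_snd.norm.pow 2).sub (h1.pow 2)).div_const _)

lemma norm_mu_le (lam t : ℝ) (ξ : EE (a + b)) : ‖mu a b u w lam t ξ‖ ≤ 1 := by
  unfold mu
  rw [norm_mul, norm_e, one_mul, Complex.norm_real, Real.norm_eq_abs, abs_mul, abs_mul]
  have h1 := abs_chi_le (‖ξ‖ / lam)
  have h2 := abs_ch2_le (zz a b u w ξ / lam)
  have h3 := abs_eta0_le ((‖ξ‖ ^ 2 - zz a b u w ξ ^ 2) / (16 * lam))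
  calc |chi (‖ξ‖ / lam)| * |ch2 (zz a b u w ξ / lam)| *
      |eta0 ((‖ξ‖ ^ 2 - zz a b u w ξ ^ 2) / (16 * lam))| ≤ 1 * 1 * 1 := by gcongr
    _ = 1 := by norm_num

lemma supp_mu (lam t : ℝ) (hl : 1 ≤ lam) (ξ : EE (a + b)) (h : 2 * lam < ‖ξ‖) :
    mu a b u w lam t ξ = 0 := by
  have h1 : chi (‖ξ‖ / lam) = 0 := by
    by_contra h2
    have h3 := (chi_supp h2).2
    rw [div_lt_iff₀ (by linarith)] at h3
    linarith
  unfold mu
  rw [h1]
  simp

lemma continuous_MK_mu (hJM : T_JM) (lam : ℝ) (hl : 1 ≤ lam) :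
    Continuous (fun p : ℝ × EE (a + b) => MK (mu a b u w lam p.1) p.2) :=
  cont_MK (mu a b u w lam) (continuous_mu hJM lam) (norm_mu_le lam) (2 * lam)
    (fun t ξ h => supp_mu lam t hl ξ h)

end

/-! ### the identity of the kernels -/

/-- coordinates adapted to `u`, `w` -/
structure Sd (n a b : ℕ) (u : EE a) (w : EE b) (Φ : EE n × (ℝ × ℝ) ≃ᵐ EE (a + b)) : Prop where
  mp : MeasurePreserving Φ volume volume
  i1 : ∀ (y : EE n) (r : ℝ × ℝ), (inner ℝ (p1 a b (Φ (y, r))) u : ℝ) = r.1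
  i2 : ∀ (y : EE n) (r : ℝ × ℝ), (inner ℝ (p2 a b (Φ (y, r))) w : ℝ) = r.2
  inn : ∀ (y y' : EE n) (r r' : ℝ × ℝ), (inner ℝ (Φ (y, r)) (Φ (y', r')) : ℝ) =
    inner ℝ y y' + (r.1 * r'.1 + r.2 * r'.2)

section

variable {n a b : ℕ} {u : EE a} {w : EE b} {Φ : EE n × (ℝ × ℝ) ≃ᵐ EE (a + b)}

lemma Sd.Z (d : Sd n a b u w Φ) (y : EE n) (r : ℝ × ℝ) :
    Z2 a b u w (Φ (y, r)) = r.1 ^ 2 + r.2 ^ 2 := by
  unfold Z2
  rw [d.i1, d.i2]

lemma Sd.nrm (d : Sd n a b u w Φ) (y : EE n) (r : ℝ × ℝ) :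
    ‖Φ (y, r)‖ ^ 2 = ‖y‖ ^ 2 + (r.1 ^ 2 + r.2 ^ 2) := by
  rw [← real_inner_self_eq_norm_sq, d.inn, real_inner_self_eq_norm_sq]
  ring

lemma Sd.int (d : Sd n a b u w Φ) (m : EE (a + b) → ℂ) (y : EE n) (r : ℝ × ℝ) :
    MK m (Φ (y, r)) =
      ∫ q : EE n × (ℝ × ℝ), e (inner ℝ y q.1 + (r.1 * q.2.1 + r.2 * q.2.2)) * m (Φ q) := by
  unfold MK
  rw [← d.mp.integral_comp Φ.measurableEmbedding]
  congr 1
  ext q
  obtain ⟨y', r'⟩ := q
  rw [d.inn]

lemma symbM (d : Sd n a b u w Φ) {u₀ : EE a} {w₀ : EE b} {Φ₀ : EE n × (ℝ × ℝ) ≃ᵐ EE (a + b)}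
    (d₀ : Sd n a b u₀ w₀ Φ₀) (lam t : ℝ) (hl : 1 ≤ lam) (y : EE n) (r : ℝ × ℝ) :
    mu a b u w lam t (Φ (Real.sqrt lam • y, lam • r)) =
      PsM a b u₀ w₀ (![t, 1 / lam], Φ₀ (y, r)) := by
  have hl0 : 0 < lam := by linarith
  obtain ⟨Q, hQ⟩ : ∃ Q, Q = r.1 ^ 2 + r.2 ^ 2 := ⟨_, rfl⟩
  obtain ⟨N, hN⟩ : ∃ N, N = ‖y‖ ^ 2 := ⟨_, rfl⟩
  have hQ0 : 0 ≤ Q := by rw [hQ]; positivity
  have hN0 : 0 ≤ N := by rw [hN]; positivity
  obtain ⟨Zs, hZs⟩ : ∃ Zs, Zs = Real.sqrt Q := ⟨_, rfl⟩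
  obtain ⟨D, hD⟩ : ∃ D, D = Real.sqrt (Q + 1 / lam * N) := ⟨_, rfl⟩
  have hZs0 : 0 ≤ Zs := by rw [hZs]; exact Real.sqrt_nonneg _
  have hD0 : 0 ≤ D := by rw [hD]; exact Real.sqrt_nonneg _
  have hZs2 : Zs ^ 2 = Q := by rw [hZs]; exact Real.sq_sqrt hQ0
  have hD2 : D ^ 2 = Q + 1 / lam * N := by rw [hD]; exact Real.sq_sqrt (by positivity)
  have e1 : Z2 a b u₀ w₀ (Φ₀ (y, r)) = Q := by rw [d₀.Z, hQ]
  have e2 : ‖Φ₀ (y, r)‖ ^ 2 = N + Q := by rw [d₀.nrm, hN, hQ]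
  have e3 : Z2 a b u w (Φ (Real.sqrt lam • y, lam • r)) = lam ^ 2 * Q := by
    rw [d.Z, hQ]
    simp only [Prod.smul_fst, Prod.smul_snd, smul_eq_mul]
    ring
  have e4 : ‖Φ (Real.sqrt lam • y, lam • r)‖ ^ 2 = lam * N + lam ^ 2 * Q := by
    rw [d.nrm, norm_smul, mul_pow, Real.norm_eq_abs, sq_abs, Real.sq_sqrt hl0.le, hN, hQ]
    simp only [Prod.smul_fst, Prod.smul_snd, smul_eq_mul]
    ring
  have e5 : zz a b u w (Φ (Real.sqrt lam • y, lam • r)) = lam * Zs := by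
    rw [zz_eq, e3, Real.sqrt_mul (by positivity), Real.sqrt_sq hl0.le, hZs]
  have e6 : zz a b u₀ w₀ (Φ₀ (y, r)) = Zs := by rw [zz_eq, e1, hZs]
  have e7 : ‖Φ (Real.sqrt lam • y, lam • r)‖ = lam * D := by
    have h1 : ‖Φ (Real.sqrt lam • y, lam • r)‖ ^ 2 = (lam * D) ^ 2 := by
      rw [e4, mul_pow, hD2]
      field_simp
      ring
    have h2 : 0 ≤ lam * D := by positivity
    exact (pow_left_inj₀ (norm_nonneg _) h2 (by norm_num)).mp h1
  have e8 : N + Q - Q = N := by ring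
  unfold mu PsM
  simp only [Matrix.cons_val_zero, Matrix.cons_val_one]
  rw [e1, e2, e5, e6, e7, e8, ← hD]
  by_cases h0 : ch2 Zs = 0
  · have h1 : ch2 (lam * Zs / lam) = 0 := by
      rw [mul_div_cancel_left₀ _ hl0.ne', h0]
    rw [h1, h0]
    simp
  · have h1 := (ch2_supp h0).1
    have h2 : 0 < D + Zs := by linarith
    have h3 : t * (lam * D - lam * Zs) = t * (N / (D + Zs)) := by
      congr 1
      rw [eq_div_iff h2.ne']
      have h4 : (lam * D - lam * Zs) * (D + Zs) = lam * (D ^ 2 - Zs ^ 2) := by ring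
      rw [h4, hD2, hZs2]
      field_simp
      ring
    have h5 : ((lam * D) ^ 2 - (lam * Zs) ^ 2) / (16 * lam) = N / 16 := by
      rw [mul_pow, mul_pow, hD2, hZs2]
      field_simp
      ring
    rw [h3, h5, mul_div_cancel_left₀ _ hl0.ne', mul_div_cancel_left₀ _ hl0.ne']

lemma MK_mu_eq (d : Sd n a b u w Φ) {u₀ : EE a} {w₀ : EE b}
    {Φ₀ : EE n × (ℝ × ℝ) ≃ᵐ EE (a + b)}
    (d₀ : Sd n a b u₀ w₀ Φ₀) (lam t : ℝ) (hl : 1 ≤ lam) (y : EE n) (r : ℝ × ℝ) :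
    MK (mu a b u w lam t) (Φ (y, r)) = ((lam ^ 2 * Real.sqrt lam ^ n : ℝ) : ℂ) *
      MK (fun ξ => PsM a b u₀ w₀ (![t, 1 / lam], ξ)) (Φ₀ (Real.sqrt lam • y, lam • r)) := by
  have hl0 : 0 < lam := by linarith
  rw [d.int, d₀.int, scale_int n (Real.sqrt lam) lam (Real.sqrt_pos.2 hl0) hl0]
  congr 2
  ext q
  obtain ⟨y', r'⟩ := q
  simp only
  rw [symbM d d₀ lam t hl y' r']
  congr 2
  rw [inner_smul_left, inner_smul_right]
  simp only [Prod.smul_fst, Prod.smul_snd, smul_eq_mul, conj_trivial]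
  ring

end

/-- MKR -/
theorem pf_mkr (hKBV : T_KBV) (hSP2 : T_SP2) (hJM : T_JM) : T_MKR := by
  intro a b ha hb
  obtain ⟨a0, rfl⟩ : ∃ a0, a = a0 + 1 := ⟨a - 1, by omega⟩
  obtain ⟨b0, rfl⟩ : ∃ b0, b = b0 + 1 := ⟨b - 1, by omega⟩
  obtain ⟨u₀, hu₀⟩ : ∃ u₀ : EE (a0 + 1), ‖u₀‖ = 1 := ⟨EuclideanSpace.single 0 1, by simp⟩
  obtain ⟨w₀, hw₀⟩ : ∃ w₀ : EE (b0 + 1), ‖w₀‖ = 1 := ⟨EuclideanSpace.single 0 1, by simp⟩
  obtain ⟨Φ₀, m0, -, -, i0, n0⟩ := hSP2 a0 b0 u₀ w₀ hu₀ hw₀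
  have d₀ : Sd (a0 + b0) (a0 + 1) (b0 + 1) u₀ w₀ Φ₀ :=
    ⟨m0, fun y r => (i0 y r).1, fun y r => (i0 y r).2, n0⟩
  have hO : IsOpen {p : Fin 2 → ℝ | -(1 / 10000) < p 1 ∧ p 1 < 2} :=
    (isOpen_lt continuous_const (continuous_apply 1)).inter
      (isOpen_lt (continuous_apply 1) continuous_const)
  have hKO : Icc (![1, 0] : Fin 2 → ℝ) ![2, 1] ⊆
      {p : Fin 2 → ℝ | -(1 / 10000) < p 1 ∧ p 1 < 2} := by
    intro p hp
    have h1 := hp.1 1
    have h2 := hp.2 1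
    simp at h1 h2
    exact ⟨by norm_num; linarith, by linarith⟩
  obtain ⟨C, hC⟩ := hKBV (a0 + 1 + (b0 + 1)) 2 (Icc ![1, 0] ![2, 1]) _
    (PsM (a0 + 1) (b0 + 1) u₀ w₀) 10 isCompact_Icc hO hKO (contDiffOn_PsM hJM hu₀ hw₀)
    (fun p _ ξ hξ => supp_PsM p ξ hξ) (a0 + 1 + (b0 + 1) + 2)
  obtain ⟨J, hJ⟩ : ∃ J : ℝ≥0∞, J = ∫⁻ x : EE (a0 + 1 + (b0 + 1)),
    ENNReal.ofReal (((1 + ‖x‖) ^ (a0 + 1 + (b0 + 1) + 1))⁻¹) := ⟨_, rfl⟩
  have hJt : J ≠ ∞ := by rw [hJ]; exact (wN_finite _).ne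
  refine ⟨(ENNReal.ofReal |C| * J).toReal, ENNReal.toReal_nonneg, ?_⟩
  intro lam u w hl hu hw
  have hl0 : 0 < lam := by linarith
  have hs0 : 0 < Real.sqrt lam := Real.sqrt_pos.2 hl0
  rw [ENNReal.ofReal_toReal (ENNReal.mul_ne_top ENNReal.ofReal_ne_top hJt)]
  obtain ⟨Φ, m1, -, -, i1, n1⟩ := hSP2 a0 b0 u w hu hw
  have d : Sd (a0 + b0) (a0 + 1) (b0 + 1) u w Φ :=
    ⟨m1, fun y r => (i1 y r).1, fun y r => (i1 y r).2, n1⟩
  refine ⟨fun t => ?_, continuous_MK_mu hJM lam hl, ?_⟩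
  · have hc : Continuous (mu (a0 + 1) (b0 + 1) u w lam t) :=
      (continuous_mu hJM lam).comp (Continuous.prodMk_right t)
    refine ⟨hc.measurable, ?_, norm_mu_le lam t⟩
    apply hc.integrable_of_hasCompactSupport
    apply HasCompactSupport.intro (isCompact_closedBall (0 : EE (a0 + 1 + (b0 + 1))) (2 * lam))
    intro x hx
    rw [mem_closedBall_zero_iff, not_le] at hx
    exact supp_mu lam t hl x hx
  obtain ⟨g, hg⟩ : ∃ g : EE (a0 + 1 + (b0 + 1)) → ℝ≥0∞,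
    g = fun x => ENNReal.ofReal (((1 + ‖x‖) ^ (a0 + 1 + (b0 + 1) + 2))⁻¹) := ⟨_, rfl⟩
  have hgm : Measurable g := by rw [hg]; fun_prop
  obtain ⟨c, hc⟩ : ∃ c : ℝ, c = lam ^ 2 * Real.sqrt lam ^ (a0 + b0) := ⟨_, rfl⟩
  have hc0 : 0 < c := by rw [hc]; positivity
  refine ⟨fun x => ENNReal.ofReal c * (ENNReal.ofReal |C| *
    g (Φ₀ (Real.sqrt lam • (Φ.symm x).1, lam • (Φ.symm x).2))), ?_, ?_, ?_⟩
  · refine Measurable.const_mul (Measurable.const_mul (hgm.comp (Φ₀.measurable.comp ?_)) _) _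
    have hA : Measurable (fun x => Real.sqrt lam • (Φ.symm x).1) :=
      (measurable_fst.comp Φ.symm.measurable).const_smul (Real.sqrt lam)
    have hB : Measurable (fun x => lam • (Φ.symm x).2) :=
      (measurable_snd.comp Φ.symm.measurable).const_smul lam
    exact hA.prodMk hB
  · intro t ht x
    have hp : (![t, 1 / lam] : Fin 2 → ℝ) ∈ Icc (![1, 0] : Fin 2 → ℝ) ![2, 1] := by
      have h3 : 1 / lam ≤ 1 := by rw [div_le_one (by linarith)]; linarith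
      have h4 : 0 ≤ 1 / lam := by positivity
      constructor
      · intro i; fin_cases i
        · exact ht.1
        · exact h4
      · intro i; fin_cases i
        · exact ht.2
        · exact h3
    have hx : x = Φ ((Φ.symm x).1, (Φ.symm x).2) := (Φ.apply_symm_apply x).symm
    conv_lhs => rw [hx]
    rw [MK_mu_eq d d₀ lam t hl, enorm_mul, ← hc]
    have h5 : ‖((c : ℝ) : ℂ)‖ₑ = ENNReal.ofReal c := by
      rw [← ofReal_norm, Complex.norm_real, Real.norm_eq_abs, abs_of_pos hc0]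
    rw [h5]
    beta_reduce
    refine mul_le_mul_right ?_ _
    rw [hg]
    simp only
    rw [← ENNReal.ofReal_mul (abs_nonneg _), ← ofReal_norm]
    apply ENNReal.ofReal_le_ofReal
    rw [← div_eq_mul_inv, le_div_iff₀ (by positivity)]
    exact (hC _ hp _).trans (le_abs_self C)
  · rw [← d.mp.lintegral_comp_emb Φ.measurableEmbedding]
    obtain ⟨G, hG⟩ : ∃ G : EE (a0 + b0) × (ℝ × ℝ) → ℝ≥0∞,
      G = fun q => ENNReal.ofReal |C| * (g (Φ₀ q) *
        ENNReal.ofReal (1 + |(inner ℝ (p1 (a0 + 1) (b0 + 1) (Φ₀ q)) u₀ : ℝ)|)) := ⟨_, rfl⟩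
    calc
      _ = ∫⁻ q : EE (a0 + b0) × (ℝ × ℝ), ENNReal.ofReal c *
          G (Real.sqrt lam • q.1, lam • q.2) := by
          apply lintegral_congr
          intro q
          obtain ⟨y, r⟩ := q
          rw [hG]
          simp only [Φ.symm_apply_apply]
          rw [d.i1, d₀.i1]
          simp only [Prod.smul_fst, smul_eq_mul, abs_mul, abs_of_pos hl0]
          ring
      _ = ∫⁻ q : EE (a0 + b0) × (ℝ × ℝ), G q := by
          rw [lintegral_const_mul' _ _ ENNReal.ofReal_ne_top, hc,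
            scale_lint (a0 + b0) (Real.sqrt lam) lam hs0 hl0]
      _ = ∫⁻ x : EE (a0 + 1 + (b0 + 1)), ENNReal.ofReal |C| * (g x *
          ENNReal.ofReal (1 + |(inner ℝ (p1 (a0 + 1) (b0 + 1) x) u₀ : ℝ)|)) := by
          rw [hG]
          exact d₀.mp.lintegral_comp_emb Φ₀.measurableEmbedding (fun x =>
            ENNReal.ofReal |C| * (g x *
              ENNReal.ofReal (1 + |(inner ℝ (p1 (a0 + 1) (b0 + 1) x) u₀ : ℝ)|)))
      _ ≤ ENNReal.ofReal |C| * J := by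
          rw [lintegral_const_mul' _ _ ENNReal.ofReal_ne_top, hJ]
          gcongr with x
          rw [hg]
          simp only
          rw [← ENNReal.ofReal_mul (by positivity)]
          apply ENNReal.ofReal_le_ofReal
          have h1 : |(inner ℝ (p1 (a0 + 1) (b0 + 1) x) u₀ : ℝ)| ≤ ‖x‖ := by
            apply abs_le_of_sq_le_sq _ (norm_nonneg _)
            have h2 := Z2_le hJM hu₀ hw₀ x
            unfold Z2 at h2
            nlinarith [sq_nonneg (inner ℝ (p2 (a0 + 1) (b0 + 1) x) w₀ : ℝ)]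
          have h2 : 0 ≤ ‖x‖ := norm_nonneg x
          rw [inv_mul_le_iff₀ (by positivity), pow_succ, mul_comm, ← mul_assoc,
            inv_mul_cancel₀ (by positivity), one_mul]
          linarith

end Pool.Agent.H71.TN
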